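import Mathlib
import Pool.Graph.R_pool_sql_team_seeded_3997aac3.Q64.IF.Spec

/-! # Dimensions of spaces of eigenforms -/

open Polynomial Module Matrix

namespace Pool.Agent.H202.SG

open Pool.Agent.Q64.IF

variable {d : ℕ}

/-- the real linear forms on which a field of rational matrices acts through `φ` -/
def eig {L : Type*} [Field L] [Algebra ℚ L] (χ : L →ₐ[ℚ] Matrix (Fin d) (Fin d) ℚ)
    (φ : L →+* ℝ) : Submodule ℝ (Fin d → ℝ) where
  carrier := {l | ∀ x : L, l ᵥ* rQ d (χ x) = φ x • l}
  add_mem' := by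
    intro a b ha hb x
    rw [add_vecMul, ha x, hb x, smul_add]
  zero_mem' := by
    intro x
    rw [zero_vecMul, smul_zero]
  smul_mem' := by
    intro c a ha x
    rw [smul_vecMul, ha x, smul_comm]

lemma mem_eig {L : Type*} [Field L] [Algebra ℚ L] {χ : L →ₐ[ℚ] Matrix (Fin d) (Fin d) ℚ}
    {φ : L →+* ℝ} {l : Fin d → ℝ} : l ∈ eig χ φ ↔ ∀ x : L, l ᵥ* rQ d (χ x) = φ x • l := Iff.rfl

lemma dot_mulVec (l : Fin d → ℝ) (x : Matrix (Fin d) (Fin d) ℚ) (v : Fin d → ℚ) :
    l ⬝ᵥ (fun j => ((x *ᵥ v) j : ℝ)) = (l ᵥ* rQ d x) ⬝ᵥ (fun j => (v j : ℝ)) := by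
  rw [← dotProduct_mulVec]
  congr 1
  funext j
  simp [mulVec, dotProduct]

/-- the dimension formula -/
theorem finrank_eig {L : Type*} [Field L] [Algebra ℚ L] (χ : L →ₐ[ℚ] Matrix (Fin d) (Fin d) ℚ)
    (φ : L →+* ℝ) : finrank ℝ (eig χ φ) * finrank ℚ L = d := by
  classical
  let _ : Module L (Fin d → ℚ) := Module.compHom (Fin d → ℚ)
    ((Matrix.toLinAlgEquiv' (R := ℚ) (n := Fin d)).toAlgHom.comp χ : L →+* Module.End ℚ (Fin d → ℚ))
  have hsmul : ∀ (x : L) (v : Fin d → ℚ), x • v = χ x *ᵥ v := by
    intro x v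
    rfl
  let _ : Module L ℝ := Module.compHom ℝ φ
  have hsmulR : ∀ (x : L) (r : ℝ), x • r = φ x * r := by
    intro x r
    rfl
  have : IsScalarTower ℚ L (Fin d → ℚ) := by
    refine ⟨fun q x v => ?_⟩
    rw [hsmul, hsmul, map_smul, smul_mulVec]
  have : SMulCommClass L ℝ ℝ := by
    refine ⟨fun x r s => ?_⟩
    rw [hsmulR, hsmulR, smul_eq_mul, smul_eq_mul]
    ring
  have : Module.Finite ℚ (Fin d → ℚ) := inferInstance
  have : Module.Finite L (Fin d → ℚ) := Module.Finite.of_restrictScalars_finite ℚ L (Fin d → ℚ)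
  -- the linear forms
  let e : eig χ φ ≃ₗ[ℝ] ((Fin d → ℚ) →ₗ[L] ℝ) :=
    { toFun := fun l =>
        { toFun := fun v => (l : Fin d → ℝ) ⬝ᵥ (fun j => (v j : ℝ))
          map_add' := by
            intro v w
            rw [← dotProduct_add]
            congr 1
            funext j
            simp
          map_smul' := by
            intro x v
            rw [hsmul, dot_mulVec, l.2 x, smul_dotProduct]
            rfl }
      map_add' := by
        intro l m
        ext v
        simp [add_dotProduct]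
      map_smul' := by
        intro r l
        ext v
        simp [smul_dotProduct]
      invFun := fun f => ⟨fun j => f (Pi.single j 1), by
        intro x
        funext j
        have h1 : χ x *ᵥ (Pi.single j 1 : Fin d → ℚ) = ∑ k, (χ x k j) • (Pi.single k 1) := by
          funext k
          simp [Finset.sum_apply, Pi.single_apply]
        have h2 : f (x • (Pi.single j 1 : Fin d → ℚ)) = φ x * f (Pi.single j 1) := by
          rw [map_smul, hsmulR]
        rw [hsmul, h1, map_sum] at h2
        rw [Pi.smul_apply, smul_eq_mul, ← h2]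
        simp only [vecMul, dotProduct, rQ_apply]
        refine Finset.sum_congr rfl fun k _ => ?_
        rw [map_rat_smul f, Rat.smul_def, mul_comm]⟩
      left_inv := by
        intro l
        apply Subtype.ext
        funext j
        have h1 : ∀ x : Fin d, (((Pi.single j 1 : Fin d → ℚ) x : ℚ) : ℝ) =
            if x = j then 1 else 0 := by
          intro x
          rw [Pi.single_apply]
          split_ifs <;> simp
        simp [dotProduct, h1]
      right_inv := by
        intro f
        ext v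
        have h1 : v = ∑ k, (v k) • (Pi.single k 1 : Fin d → ℚ) := by
          funext k
          simp [Finset.sum_apply, Pi.single_apply]
        simp only [LinearMap.coe_mk, AddHom.coe_mk]
        conv_rhs => rw [h1, map_sum]
        simp only [dotProduct]
        refine Finset.sum_congr rfl fun k _ => ?_
        rw [map_rat_smul f, Rat.smul_def, mul_comm] }
  have h1 : finrank ℝ (eig χ φ) = finrank L (Fin d → ℚ) := by
    rw [e.finrank_eq, Module.finrank_linearMap_self]
  have h2 := Module.finrank_mul_finrank ℚ L (Fin d → ℚ)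
  rw [h1, mul_comm, h2]
  simp

/-- the trace of a root of unity type endomorphism and its powers -/
theorem proj_trace {U : Type*} [AddCommGroup U] [Module ℝ U] [FiniteDimensional ℝ U]
    (A : Module.End ℝ U) {p : ℕ} (hp : 0 < p) {c : ℝ} (hc : c ≠ 0) (hA : A ^ p = (c ^ p) • 1) :
    (p : ℝ) * finrank ℝ (LinearMap.ker (A - c • (1 : Module.End ℝ U))) =
      ∑ j ∈ Finset.range p, (c ^ j)⁻¹ * LinearMap.trace ℝ U (A ^ j) := by
  classical
  have hp' : (p : ℝ) ≠ 0 := by exact_mod_cast hp.ne'
  set S : Module.End ℝ U := ∑ j ∈ Finset.range p, (c ^ j)⁻¹ • A ^ j with hS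
  set P : Module.End ℝ U := (p : ℝ)⁻¹ • S with hP
  have hAS : A * S = c • S := by
    have h1 : A * S = c • ∑ j ∈ Finset.range p, (c ^ (j + 1))⁻¹ • A ^ (j + 1) := by
      rw [hS, Finset.mul_sum, Finset.smul_sum]
      refine Finset.sum_congr rfl fun j _ => ?_
      rw [mul_smul_comm, ← pow_succ', smul_smul]
      congr 1
      rw [pow_succ, mul_inv]
      field_simp
    rw [h1]
    congr 1
    have h2 : ∑ j ∈ Finset.range p, (c ^ (j + 1))⁻¹ • A ^ (j + 1) + (c ^ 0)⁻¹ • A ^ 0 =
        S + (c ^ p)⁻¹ • A ^ p := by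
      rw [← Finset.sum_range_succ' (fun j => (c ^ j)⁻¹ • A ^ j) p, Finset.sum_range_succ]
    have h3 : (c ^ p)⁻¹ • A ^ p = (c ^ 0)⁻¹ • A ^ 0 := by
      rw [hA, smul_smul, inv_mul_cancel₀ (pow_ne_zero _ hc), pow_zero, pow_zero, inv_one]
    rw [h3] at h2
    exact add_right_cancel h2
  have hproj : LinearMap.IsProj (LinearMap.ker (A - c • (1 : Module.End ℝ U))) P := by
    refine ⟨fun u => ?_, fun u hu => ?_⟩
    · have h1 := congrArg (fun f : Module.End ℝ U => f u) hAS
      simp only [Module.End.mul_apply, LinearMap.smul_apply] at h1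
      have h2 : P u = (p : ℝ)⁻¹ • S u := by rw [hP, LinearMap.smul_apply]
      rw [LinearMap.mem_ker, LinearMap.sub_apply, h2, map_smul, h1, LinearMap.smul_apply,
        Module.End.one_apply, smul_comm, sub_self]
    · rw [LinearMap.mem_ker, LinearMap.sub_apply, LinearMap.smul_apply, Module.End.one_apply,
        sub_eq_zero] at hu
      have h1 : ∀ j : ℕ, (A ^ j) u = c ^ j • u := by
        intro j
        induction j with
        | zero => simp
        | succ j ih => rw [pow_succ', Module.End.mul_apply, ih, map_smul, hu, smul_smul, pow_succ]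
      rw [hP, hS, LinearMap.smul_apply, LinearMap.sum_apply]
      have h2 : ∑ j ∈ Finset.range p, ((c ^ j)⁻¹ • A ^ j) u = (p : ℝ) • u := by
        rw [Finset.sum_congr rfl fun j _ => by
          rw [LinearMap.smul_apply, h1, smul_smul, inv_mul_cancel₀ (pow_ne_zero _ hc), one_smul]]
        rw [Finset.sum_const, Finset.card_range, ← Nat.cast_smul_eq_nsmul ℝ]
      rw [h2, smul_smul, inv_mul_cancel₀ hp', one_smul]
  rw [← hproj.trace, hP, map_smul, smul_eq_mul, ← mul_assoc, mul_inv_cancel₀ hp', one_mul, hS,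
    map_sum]
  exact Finset.sum_congr rfl fun j _ => by rw [map_smul, smul_eq_mul]

end Pool.Agent.H202.SG
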