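import Mathlib

/-! # Real radicals -/

open Polynomial Module

namespace Pool.Agent.H202.SG

/-- the minimal polynomial of a real radical -/
theorem radical {k E : Type*} [Field k] [Field E] [Algebra k E] (φ : E →+* ℝ) {c : E} {N : ℕ}
    (hN : 0 < N) {a₀ : k} (h : algebraMap k E a₀ = c ^ N) :
    ∃ a : k, algebraMap k E a = c ^ (minpoly k c).natDegree ∧
      minpoly k c = X ^ (minpoly k c).natDegree - C a := by
  classical
  have hint : IsIntegral k c := by
    refine IsIntegral.of_pow hN ?_
    rw [← h]
    exact isIntegral_algebraMap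
  have hmon : (minpoly k c).Monic := minpoly.monic hint
  set ψ : k →+* ℂ := (algebraMap ℝ ℂ).comp (φ.comp (algebraMap k E)) with hψ
  set P : ℂ[X] := (minpoly k c).map ψ with hP
  have hPmon : P.Monic := hmon.map ψ
  have hPdeg : P.natDegree = (minpoly k c).natDegree := hmon.natDegree_map ψ
  have hdvd : minpoly k c ∣ X ^ N - C a₀ := by
    refine minpoly.dvd k c ?_
    simp [h]
  have hPdvd : P ∣ X ^ N - C (ψ a₀) := by
    have h1 := Polynomial.map_dvd ψ hdvd
    simpa using h1
  have hsplit : P.Splits := IsAlgClosed.splits P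
  have hcard : P.roots.card = (minpoly k c).natDegree := by
    rw [← hPdeg]
    exact (splits_iff_card_roots.1 hsplit)
  have hroot : ∀ z ∈ P.roots, ‖z‖ = |φ c| := by
    intro z hz
    have h1 : P.IsRoot z := (mem_roots'.1 hz).2
    have h2 : (X ^ N - C (ψ a₀) : ℂ[X]).IsRoot z := h1.dvd hPdvd
    have h3 : z ^ N = ((φ c : ℝ) : ℂ) ^ N := by
      have h4 : z ^ N = ψ a₀ := by
        simpa [sub_eq_zero] using h2
      rw [h4, hψ]
      simp only [RingHom.coe_comp, Function.comp_apply, h, map_pow]
      rfl
    have h5 : ‖z‖ ^ N = |φ c| ^ N := by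
      rw [← norm_pow, h3, norm_pow, Complex.norm_real, Real.norm_eq_abs]
    exact (pow_left_inj₀ (norm_nonneg _) (abs_nonneg _) hN.ne').1 h5
  have hprod : ‖P.coeff 0‖ = |φ c| ^ (minpoly k c).natDegree := by
    have h1 : P.coeff 0 = (-1) ^ P.natDegree * P.roots.prod :=
      hsplit.coeff_zero_eq_prod_roots_of_monic hPmon
    rw [h1, norm_mul, norm_pow, norm_neg, norm_one, one_pow, one_mul]
    have h2 : ∀ s : Multiset ℂ, (∀ z ∈ s, ‖z‖ = |φ c|) → ‖s.prod‖ = |φ c| ^ s.card := by
      intro s
      induction s using Multiset.induction_on with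
      | empty => intro _; simp
      | cons a s ih =>
        intro hs
        rw [Multiset.prod_cons, norm_mul, ih fun z hz => hs z (Multiset.mem_cons_of_mem hz),
          hs a (Multiset.mem_cons_self a s), Multiset.card_cons, pow_succ]
        ring
    rw [h2 _ hroot, hcard]
  have hreal : |φ (algebraMap k E ((minpoly k c).coeff 0))| =
      |φ (c ^ (minpoly k c).natDegree)| := by
    rw [map_pow, abs_pow, ← hprod, hP, coeff_map, hψ]
    simp only [RingHom.coe_comp, Function.comp_apply]
    rw [Complex.coe_algebraMap, Complex.norm_real, Real.norm_eq_abs]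
  obtain ⟨a, ha⟩ : ∃ a : k, algebraMap k E a = c ^ (minpoly k c).natDegree := by
    rcases abs_eq_abs.1 hreal with h1 | h1
    · exact ⟨(minpoly k c).coeff 0, φ.injective h1⟩
    · refine ⟨-(minpoly k c).coeff 0, φ.injective ?_⟩
      rw [map_neg, map_neg, h1, neg_neg]
  refine ⟨a, ha, ?_⟩
  have hD0 : 0 < (minpoly k c).natDegree := minpoly.natDegree_pos hint
  symm
  refine minpoly.unique_of_degree_le_degree_minpoly k c (monic_X_pow_sub_C a hD0.ne')
    (by simp [ha]) ?_
  rw [degree_X_pow_sub_C hD0, ← degree_eq_natDegree hmon.ne_zero]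

/-- a real radical outside of the field has trace zero -/
theorem trace_radical {k E : Type*} [Field k] [Field E] [Algebra k E] [FiniteDimensional k E]
    (φ : E →+* ℝ) {c : E} {N : ℕ} (hN : 0 < N) {a₀ : k} (h : algebraMap k E a₀ = c ^ N)
    (hc : ∀ a : k, algebraMap k E a ≠ c) : Algebra.trace k E c = 0 := by
  obtain ⟨a, ha, hm⟩ := radical φ hN h
  have hD : 2 ≤ (minpoly k c).natDegree := by
    by_contra hlt
    have h0 : 0 < (minpoly k c).natDegree :=
      minpoly.natDegree_pos (Algebra.IsIntegral.isIntegral c)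
    have h1 : (minpoly k c).natDegree = 1 := by omega
    rw [h1, pow_one] at ha
    exact hc a ha
  rw [trace_eq_finrank_mul_minpoly_nextCoeff]
  have h2 : (minpoly k c).nextCoeff = 0 := by
    rw [nextCoeff_of_natDegree_pos (by omega), hm]
    rw [natDegree_X_pow_sub_C]
    have h3 : (minpoly k c).natDegree - 1 ≠ 0 := by omega
    have h4 : (minpoly k c).natDegree - 1 ≠ (minpoly k c).natDegree := by omega
    rw [coeff_sub, coeff_X_pow, coeff_C, if_neg h4, if_neg h3, sub_zero]
  rw [h2, neg_zero, mul_zero]

/-- real radicals which are independent modulo the field span a field -/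
theorem card_dvd {k E : Type*} [Field k] [Field E] [Algebra k E] [FiniteDimensional k E]
    (φ : E →+* ℝ) {Q : Type*} [Group Q] [Finite Q] (c : Q → E) (hc0 : ∀ q, c q ≠ 0)
    (hmul : ∀ q r, ∃ a : k, algebraMap k E a * c (q * r) = c q * c r)
    (hinj : ∀ q r, (∃ a : k, algebraMap k E a * c r = c q) → q = r) :
    Nat.card Q ∣ finrank k E := by
  classical
  have : Fintype Q := Fintype.ofFinite Q
  -- the class of one
  obtain ⟨a₁, ha₁⟩ := hmul 1 1
  rw [mul_one] at ha₁
  have hc1 : algebraMap k E a₁ = c 1 := mul_right_cancel₀ (hc0 1) ha₁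
  -- powers
  have hpow : ∀ (q : Q) (n : ℕ), ∃ a : k, algebraMap k E a * c (q ^ n) = c q ^ n := by
    intro q n
    induction n with
    | zero =>
      refine ⟨a₁⁻¹, ?_⟩
      rw [pow_zero, pow_zero, map_inv₀, hc1, inv_mul_cancel₀ (hc0 1)]
    | succ n ih =>
      obtain ⟨a, ha⟩ := ih
      obtain ⟨b, hb⟩ := hmul (q ^ n) q
      refine ⟨a * b, ?_⟩
      rw [pow_succ, pow_succ, ← ha, map_mul, mul_assoc, hb]
      ring
  have hcard0 : 0 < Nat.card Q := Nat.card_pos
  -- the power of every element with exponent the order is in the field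
  have hN : ∀ q : Q, ∃ a : k, algebraMap k E a = c q ^ Nat.card Q := by
    intro q
    obtain ⟨a, ha⟩ := hpow q (Nat.card Q)
    rw [pow_card_eq_one', ← hc1, ← map_mul] at ha
    exact ⟨_, ha⟩
  have htr : ∀ q r : Q, q ≠ r → Algebra.trace k E (c q * (c r)⁻¹) = 0 := by
    intro q r hqr
    obtain ⟨a, ha⟩ := hN q
    obtain ⟨b, hb⟩ := hN r
    refine trace_radical φ (N := Nat.card Q) hcard0 (a₀ := a * b⁻¹) ?_ ?_
    · rw [map_mul, map_inv₀, ha, hb, mul_pow, inv_pow]
    · intro x hx
      refine hqr (hinj q r ⟨x, ?_⟩)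
      rw [hx, mul_assoc, inv_mul_cancel₀ (hc0 r), mul_one]
  have hchar : CharZero k :=
    (RingHom.charZero (φ.comp (algebraMap k E)) : CharZero k)
  have hfin : (finrank k E : k) ≠ 0 := by
    exact_mod_cast (finrank_pos (R := k) (M := E)).ne'
  have hli : LinearIndependent k c := by
    rw [Fintype.linearIndependent_iff]
    intro a ha r
    have h1 : ∑ q, a q • (c q * (c r)⁻¹) = 0 := by
      have h2 : ∑ q, a q • (c q * (c r)⁻¹) = (∑ q, a q • c q) * (c r)⁻¹ := by
        rw [Finset.sum_mul]
        exact Finset.sum_congr rfl fun q _ => (smul_mul_assoc _ _ _).symm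
      rw [h2, ha, zero_mul]
    have h2 := congrArg (Algebra.trace k E) h1
    rw [map_sum, map_zero] at h2
    simp only [map_smul] at h2
    rw [Finset.sum_eq_single r] at h2
    · rw [mul_inv_cancel₀ (hc0 r)] at h2
      have h3 : Algebra.trace k E 1 = (finrank k E : k) := by
        have := Algebra.trace_algebraMap (R := k) (S := E) (1 : k)
        rw [map_one] at this
        rw [this, nsmul_one]
      rw [h3, smul_eq_mul] at h2
      exact (mul_eq_zero.1 h2).resolve_right hfin
    · intro q _ hq
      rw [htr q r hq, smul_zero]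
    · intro h0
      exact absurd (Finset.mem_univ _) h0
  -- the span is a field
  set S : Submodule k E := Submodule.span k (Set.range c) with hS
  have hSmul : ∀ x ∈ S, ∀ y ∈ S, x * y ∈ S := by
    intro x hx y hy
    induction hx using Submodule.span_induction with
    | mem x hx =>
      obtain ⟨q, rfl⟩ := hx
      induction hy using Submodule.span_induction with
      | mem y hy =>
        obtain ⟨r, rfl⟩ := hy
        obtain ⟨a, ha⟩ := hmul q r
        rw [← ha, ← Algebra.smul_def]
        exact S.smul_mem _ (Submodule.subset_span ⟨_, rfl⟩)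
      | zero => rw [mul_zero]; exact S.zero_mem
      | add y z _ _ hy hz => rw [mul_add]; exact S.add_mem hy hz
      | smul a y _ hy => rw [mul_smul_comm]; exact S.smul_mem _ hy
    | zero => rw [zero_mul]; exact S.zero_mem
    | add x z _ _ hx hz => rw [add_mul]; exact S.add_mem hx hz
    | smul a x _ hx => rw [smul_mul_assoc]; exact S.smul_mem _ hx
  have hSone : (1 : E) ∈ S := by
    have h1 : (1 : E) = a₁⁻¹ • c 1 := by
      rw [Algebra.smul_def, map_inv₀, hc1, inv_mul_cancel₀ (hc0 1)]
    rw [h1]
    exact S.smul_mem _ (Submodule.subset_span ⟨1, rfl⟩)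
  set B : Subalgebra k E := S.toSubalgebra hSone fun x y hx hy => hSmul x hx y hy with hB
  set M : IntermediateField k E := B.toIntermediateField fun x hx =>
    B.inv_mem_of_algebraic (x := ⟨x, hx⟩) (Algebra.IsAlgebraic.isAlgebraic x) with hM
  have hMr : finrank k M = Nat.card Q := by
    have h1 : finrank k M = finrank k S := rfl
    rw [h1, hS, finrank_span_eq_card hli, Nat.card_eq_fintype_card]
  rw [← hMr]
  exact ⟨_, (Module.finrank_mul_finrank k M E).symm⟩

end Pool.Agent.H202.SG
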