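import Mathlib
import Pool.Agent.H202.SG.Field
import Pool.Agent.H202.SG.Dim

/-! # The field of a linear factor -/

open Polynomial Module Matrix

namespace Pool.Agent.H202.SG

open Pool.Agent.Q64.IF

variable {d : ℕ} {g : Matrix (Fin d) (Fin d) ℝ}

/-- no linear form vanishes at a nonzero rational point -/
def Aniso (g : Matrix (Fin d) (Fin d) ℝ) : Prop :=
  ∀ v : Fin d → ℚ, v ≠ 0 → ∀ i, g i ⬝ᵥ (fun j => (v j : ℝ)) ≠ 0

lemma eq_zero_of_row (hA : Aniso g) {i : Fin d} {x : Matrix (Fin d) (Fin d) ℚ}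
    (h : g i ᵥ* rQ d x = 0) : x = 0 := by
  ext a b
  by_contra hne
  have h1 : (fun j => x j b) ≠ (0 : Fin d → ℚ) := fun h0 => hne (congrFun h0 a)
  refine hA _ h1 i ?_
  have h2 := congrFun h b
  simpa [vecMul, dotProduct] using h2

lemma row_uniq (hA : Aniso g) {i : Fin d} {x y : Matrix (Fin d) (Fin d) ℚ}
    (h : g i ᵥ* rQ d x = g i ᵥ* rQ d y) : x = y := by
  have h1 : g i ᵥ* rQ d (x - y) = 0 := by
    rw [map_sub, vecMul_sub, h, sub_self]
  exact sub_eq_zero.1 (eq_zero_of_row hA h1)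

lemma row_ne_zero (hA : Aniso g) (i : Fin d) : g i ≠ 0 := by
  intro h
  have h1 : (1 : Matrix (Fin d) (Fin d) ℚ) = 0 := by
    refine eq_zero_of_row (i := i) hA ?_
    rw [h, zero_vecMul]
  have h2 := congrFun (congrFun h1 i) i
  simp at h2

lemma smul_row_inj (hA : Aniso g) (i : Fin d) {a b : ℝ} (h : a • g i = b • g i) : a = b := by
  have h1 : (a - b) • g i = 0 := by rw [sub_smul, h, sub_self]
  rcases smul_eq_zero.1 h1 with h2 | h2
  · exact sub_eq_zero.1 h2
  · exact absurd h2 (row_ne_zero hA i)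

/-- a nonzero rational matrix with an eigenform is invertible -/
lemma inv_row (hA : Aniso g) {i : Fin d} {x : Matrix (Fin d) (Fin d) ℚ} {c : ℝ} (hc : c ≠ 0)
    (h : g i ᵥ* rQ d x = c • g i) : IsUnit x.det ∧ g i ᵥ* rQ d x⁻¹ = c⁻¹ • g i := by
  have hdet : IsUnit x.det := by
    rw [isUnit_iff_ne_zero]
    intro h0
    obtain ⟨v, hv, hxv⟩ := Matrix.exists_mulVec_eq_zero_iff.2 h0
    have h1 := dot_mulVec (g i) x v
    rw [hxv, h, smul_dotProduct] at h1
    have h2 : (fun j : Fin d => (((0 : Fin d → ℚ) j : ℚ) : ℝ)) = 0 := by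
      funext j; simp
    rw [h2, dotProduct_zero, smul_eq_mul] at h1
    rcases mul_eq_zero.1 h1.symm with h3 | h3
    · exact hc h3
    · exact hA v hv i h3
  refine ⟨hdet, ?_⟩
  have h1 : g i ᵥ* rQ d x ᵥ* rQ d x⁻¹ = g i := by
    rw [vecMul_vecMul, ← map_mul, mul_nonsing_inv _ hdet, map_one, vecMul_one]
  rw [h, smul_vecMul] at h1
  calc g i ᵥ* rQ d x⁻¹ = c⁻¹ • (c • (g i ᵥ* rQ d x⁻¹)) := by
        rw [smul_smul, inv_mul_cancel₀ hc, one_smul]
    _ = c⁻¹ • g i := by rw [h1]

lemma rQ_algebraMap (q : ℚ) :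
    rQ d (algebraMap ℚ (Matrix (Fin d) (Fin d) ℚ) q) = (q : ℝ) • (1 : Matrix (Fin d) (Fin d) ℝ) := by
  ext a b
  rw [rQ_apply, Matrix.algebraMap_matrix_apply, Matrix.smul_apply, Matrix.one_apply]
  split_ifs <;> simp

/-- the field of the eigenvalues at a linear form -/
def fieldE (hA : Aniso g) (i : Fin d) : IntermediateField ℚ ℝ where
  carrier := {c | ∃ x : Matrix (Fin d) (Fin d) ℚ, g i ᵥ* rQ d x = c • g i}
  mul_mem' := by
    rintro a b ⟨x, hx⟩ ⟨y, hy⟩
    refine ⟨x * y, ?_⟩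
    rw [map_mul, ← vecMul_vecMul, hx, smul_vecMul, hy, smul_smul]
  add_mem' := by
    rintro a b ⟨x, hx⟩ ⟨y, hy⟩
    exact ⟨x + y, by rw [map_add, vecMul_add, hx, hy, add_smul]⟩
  algebraMap_mem' := by
    intro q
    refine ⟨algebraMap ℚ _ q, ?_⟩
    rw [rQ_algebraMap, vecMul_smul, vecMul_one]
    rfl
  inv_mem' := by
    rintro a ⟨x, hx⟩
    by_cases ha : a = 0
    · exact ⟨0, by rw [ha, map_zero, vecMul_zero, _root_.inv_zero, zero_smul]⟩
    · exact ⟨x⁻¹, (inv_row hA ha hx).2⟩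

/-- the rational matrix with a given eigenvalue -/
noncomputable def chi (hA : Aniso g) (i : Fin d) :
    fieldE hA i →ₐ[ℚ] Matrix (Fin d) (Fin d) ℚ where
  toFun c := Classical.choose c.2
  map_one' := by
    refine row_uniq hA (i := i) ?_
    rw [Classical.choose_spec (1 : fieldE hA i).2, map_one, vecMul_one]
    exact one_smul _ _
  map_mul' a b := by
    refine row_uniq hA (i := i) ?_
    rw [Classical.choose_spec (a * b).2, map_mul, ← vecMul_vecMul, Classical.choose_spec a.2,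
      smul_vecMul, Classical.choose_spec b.2, smul_smul]
    rfl
  map_zero' := by
    refine row_uniq hA (i := i) ?_
    rw [Classical.choose_spec (0 : fieldE hA i).2, map_zero, vecMul_zero]
    exact zero_smul _ _
  map_add' a b := by
    refine row_uniq hA (i := i) ?_
    rw [Classical.choose_spec (a + b).2, map_add, vecMul_add, Classical.choose_spec a.2,
      Classical.choose_spec b.2, ← add_smul]
    rfl
  commutes' q := by
    refine row_uniq hA (i := i) ?_
    rw [Classical.choose_spec (algebraMap ℚ (fieldE hA i) q).2, rQ_algebraMap, vecMul_smul,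
      vecMul_one]
    rfl

lemma chi_spec (hA : Aniso g) (i : Fin d) (c : fieldE hA i) :
    g i ᵥ* rQ d (chi hA i c) = (c : ℝ) • g i := Classical.choose_spec c.2

lemma chi_eq (hA : Aniso g) (i : Fin d) (c : fieldE hA i) {x : Matrix (Fin d) (Fin d) ℚ}
    (h : g i ᵥ* rQ d x = (c : ℝ) • g i) : chi hA i c = x := by
  refine row_uniq hA (i := i) ?_
  rw [chi_spec, h]

lemma chi_injective (hA : Aniso g) (i : Fin d) : Function.Injective (chi hA i) := by
  intro a b h
  have h1 := chi_spec hA i a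
  rw [h, chi_spec] at h1
  exact Subtype.ext (smul_row_inj hA i h1).symm

instance (hA : Aniso g) (i : Fin d) : FiniteDimensional ℚ (fieldE hA i) :=
  FiniteDimensional.of_injective (chi hA i).toLinearMap (chi_injective hA i)

/-- `σ` multiplies every linear form by a constant -/
def Diag (g : Matrix (Fin d) (Fin d) ℝ) (σ : Matrix (Fin d) (Fin d) ℚ) : Prop :=
  ∀ k, ∃ b : ℝ, g k ᵥ* rQ d σ = b • g k

lemma Diag.one : Diag g 1 := fun k => ⟨1, by rw [map_one, vecMul_one, one_smul]⟩

lemma Diag.mul {σ τ : Matrix (Fin d) (Fin d) ℚ} (hσ : Diag g σ) (hτ : Diag g τ) :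
    Diag g (σ * τ) := by
  intro k
  obtain ⟨a, ha⟩ := hσ k
  obtain ⟨b, hb⟩ := hτ k
  exact ⟨a * b, by rw [map_mul, ← vecMul_vecMul, ha, smul_vecMul, hb, smul_smul]⟩

lemma Diag.pow {σ : Matrix (Fin d) (Fin d) ℚ} (hσ : Diag g σ) (n : ℕ) : Diag g (σ ^ n) := by
  induction n with
  | zero => rw [pow_zero]; exact Diag.one
  | succ n ih => rw [pow_succ]; exact ih.mul hσ

/-- the field of symmetries, in the field of the linear form -/
def fieldK (hA : Aniso g) (i : Fin d) : IntermediateField ℚ (fieldE hA i) where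
  carrier := {x | Diag g (chi hA i x)}
  mul_mem' := by
    intro a b ha hb
    rw [Set.mem_ofPred_eq, map_mul]
    exact ha.mul hb
  add_mem' := by
    intro a b ha hb
    rw [Set.mem_ofPred_eq, map_add]
    intro k
    obtain ⟨r, hr⟩ := ha k
    obtain ⟨s, hs⟩ := hb k
    exact ⟨r + s, by rw [map_add, vecMul_add, hr, hs, add_smul]⟩
  algebraMap_mem' := by
    intro q
    rw [Set.mem_ofPred_eq, AlgHom.commutes]
    intro k
    exact ⟨q, by rw [rQ_algebraMap, vecMul_smul, vecMul_one]⟩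
  inv_mem' := by
    intro a ha
    by_cases h0 : a = 0
    · rw [h0, _root_.inv_zero, Set.mem_ofPred_eq, map_zero]
      intro k
      exact ⟨0, by rw [map_zero, vecMul_zero, zero_smul]⟩
    · rw [Set.mem_ofPred_eq]
      intro k
      obtain ⟨b, hb⟩ := ha k
      have h1 : chi hA i a * chi hA i a⁻¹ = 1 := by
        rw [← map_mul, mul_inv_cancel₀ h0, map_one]
      have hb0 : b ≠ 0 := by
        intro hb0
        rw [hb0, zero_smul] at hb
        have h2 := eq_zero_of_row hA hb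
        rw [h2, zero_mul] at h1
        have h3 := congrFun (congrFun h1 i) i
        simp at h3
      obtain ⟨h2, h3⟩ := inv_row hA hb0 hb
      refine ⟨b⁻¹, ?_⟩
      have h4 : chi hA i a⁻¹ = (chi hA i a)⁻¹ := by
        rw [eq_comm]
        exact Matrix.inv_eq_right_inv h1
      rw [h4]
      exact h3

lemma mem_fieldK {hA : Aniso g} {i : Fin d} {x : fieldE hA i} :
    x ∈ fieldK hA i ↔ Diag g (chi hA i x) := Iff.rfl

end Pool.Agent.H202.SG
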