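import Mathlib
import Pool.Agent.H202.SG.Struct

/-! # No stabilizers of odd order -/

open Polynomial Module Matrix

namespace Pool.Agent.H202.SG

open Pool.Agent.Q64.IF

variable {d : ℕ} {g : Matrix (Fin d) (Fin d) ℝ}

lemma rows_li (hg : g.det ≠ 0) : LinearIndependent ℝ (fun k => g k) :=
  Matrix.linearIndependent_rows_iff_isUnit.2 ((Matrix.isUnit_iff_isUnit_det g).2
    (isUnit_iff_ne_zero.2 hg))

lemma exists_coord (hg : g.det ≠ 0) (l : Fin d → ℝ) : ∃ a : Fin d → ℝ, l = ∑ k, a k • g k := by
  refine ⟨l ᵥ* g⁻¹, ?_⟩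
  have h1 : (l ᵥ* g⁻¹) ᵥ* g = l := by
    rw [vecMul_vecMul, nonsing_inv_mul _ (isUnit_iff_ne_zero.2 hg), vecMul_one]
  conv_lhs => rw [← h1]
  funext j
  simp [vecMul, dotProduct, Finset.sum_apply]

lemma row_inj (hg : g.det ≠ 0) {i j : Fin d} {a b : ℝ} (ha : a ≠ 0) (h : a • g i = b • g j) :
    i = j := by
  classical
  by_contra hij
  have h1 := Fintype.linearIndependent_iff.1 (rows_li hg)
    (Pi.single i a - Pi.single j b) (by
      simp [sub_smul, Finset.sum_sub_distrib, Pi.single_apply, ite_smul, h]) i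
  simp [hij] at h1
  exact ha h1

/-- the restriction of `chi` to the field of symmetries -/
noncomputable abbrev chiK (hA : Aniso g) (i : Fin d) :
    fieldK hA i →ₐ[ℚ] Matrix (Fin d) (Fin d) ℚ := (chi hA i).comp (fieldK hA i).val

/-- the real embedding of the field of symmetries -/
noncomputable abbrev phiK (hA : Aniso g) (i : Fin d) : fieldK hA i →+* ℝ :=
  ((fieldE hA i).val.comp (fieldK hA i).val : fieldK hA i →ₐ[ℚ] ℝ)

/-- the linear forms with the same eigenvalues as the linear form number `i` -/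
noncomputable def cls (hA : Aniso g) (i : Fin d) : Finset (Fin d) := by
  classical
  exact Finset.univ.filter fun k => g k ∈ eig (chiK hA i) (phiK hA i)

lemma mem_cls {hA : Aniso g} {i k : Fin d} :
    k ∈ cls hA i ↔ g k ∈ eig (chiK hA i) (phiK hA i) := by
  classical
  simp [cls]

lemma self_mem_cls (hA : Aniso g) (i : Fin d) : i ∈ cls hA i := by
  rw [mem_cls, mem_eig]
  intro x
  exact chi_spec hA i x

/-- the space of the eigenforms is spanned by the class -/
lemma mem_span_cls (hg : g.det ≠ 0) (hA : Aniso g) (i : Fin d) {l : Fin d → ℝ}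
    (hl : l ∈ eig (chiK hA i) (phiK hA i)) :
    ∃ a : Fin d → ℝ, (∀ k, k ∉ cls hA i → a k = 0) ∧ l = ∑ k, a k • g k := by
  classical
  obtain ⟨a, ha⟩ := exists_coord hg l
  refine ⟨a, fun k hk => ?_, ha⟩
  by_contra hak
  refine hk ?_
  rw [mem_cls, mem_eig]
  intro x
  have h1 : ∀ k, ∃ b : ℝ, g k ᵥ* rQ d (chiK hA i x) = b • g k := x.2
  choose b hb using h1
  have h2 := hl x
  rw [ha] at h2
  have h3 : (∑ k, a k • g k) ᵥ* rQ d (chiK hA i x) = ∑ k, (a k * b k) • g k := by
    rw [Matrix.sum_vecMul]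
    refine Finset.sum_congr rfl fun k _ => ?_
    rw [smul_vecMul, hb, smul_smul]
  rw [h3, Finset.smul_sum] at h2
  have h4 := Fintype.linearIndependent_iff.1 (rows_li hg)
    (fun k => a k * b k - phiK hA i x * a k) (by
      rw [Finset.sum_congr rfl fun k _ => sub_smul (a k * b k) (phiK hA i x * a k) (g k),
        Finset.sum_sub_distrib, h2]
      simp only [mul_smul, sub_self]) k
  have h5 : b k = phiK hA i x := by
    have h6 : a k * (b k - phiK hA i x) = 0 := by linarith
    exact sub_eq_zero.1 ((mul_eq_zero.1 h6).resolve_left hak)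
  rw [hb, h5]

/-- a basis of the space of the eigenforms -/
noncomputable def bU (hg : g.det ≠ 0) (hA : Aniso g) (i : Fin d) :
    Basis (cls hA i) ℝ (eig (chiK hA i) (phiK hA i)) := by
  classical
  refine Basis.mk (v := fun k : cls hA i => (⟨g k, mem_cls.1 k.2⟩ : eig (chiK hA i) (phiK hA i)))
    ?_ ?_
  · refine LinearIndependent.of_comp (eig (chiK hA i) (phiK hA i)).subtype ?_
    exact (rows_li hg).comp _ Subtype.val_injective
  · rintro ⟨l, hl⟩ -
    obtain ⟨a, ha, rfl⟩ := mem_span_cls hg hA i hl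
    have h1 : (⟨∑ k, a k • g k, hl⟩ : eig (chiK hA i) (phiK hA i)) =
        ∑ k : cls hA i, a k • (⟨g k, mem_cls.1 k.2⟩ : eig (chiK hA i) (phiK hA i)) := by
      apply Subtype.ext
      rw [Submodule.coe_sum]
      simp only [Submodule.coe_smul]
      rw [Finset.sum_coe_sort (cls hA i) (fun k => a k • g k)]
      symm
      refine Finset.sum_subset (Finset.subset_univ _) fun k _ hk => ?_
      rw [ha k hk, zero_smul]
    rw [h1]
    exact Submodule.sum_mem _ fun k _ => Submodule.smul_mem _ _ (Submodule.subset_span ⟨k, rfl⟩)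

lemma bU_apply (hg : g.det ≠ 0) (hA : Aniso g) (i : Fin d) (k : cls hA i) :
    (bU hg hA i k : Fin d → ℝ) = g k := by
  rw [bU, Basis.mk_apply]

lemma finrank_cls (hg : g.det ≠ 0) (hA : Aniso g) (i : Fin d) :
    finrank ℝ (eig (chiK hA i) (phiK hA i)) = (cls hA i).card := by
  rw [finrank_eq_card_basis (bU hg hA i), Fintype.card_coe]

/-- the size of the class -/
lemma card_cls (hg : g.det ≠ 0) (hA : Aniso g) (i : Fin d) :
    (cls hA i).card * finrank ℚ (fieldK hA i) = d := by
  rw [← finrank_cls hg hA i]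
  exact finrank_eig _ _

/-- the degree of the field of the linear form over the field of symmetries divides the size of the
class -/
lemma finrank_dvd_cls (hg : g.det ≠ 0) (hA : Aniso g) (i : Fin d) :
    finrank (fieldK hA i) (fieldE hA i) ∣ (cls hA i).card := by
  have h1 := finrank_eig (chi hA i) ((fieldE hA i).val : fieldE hA i →+* ℝ)
  have h2 := card_cls hg hA i
  have h3 := Module.finrank_mul_finrank ℚ (fieldK hA i) (fieldE hA i)
  have h4 : 0 < finrank ℚ (fieldK hA i) := finrank_pos
  refine ⟨finrank ℝ (eig (chi hA i) ((fieldE hA i).val : fieldE hA i →+* ℝ)), ?_⟩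
  refine Nat.eq_of_mul_eq_mul_right h4 ?_
  rw [← h3] at h1
  refine h2.trans (h1.symm.trans ?_)
  ring

/-- a matrix in the field of the linear form acts on the eigenforms of the field of symmetries -/
noncomputable def act (hA : Aniso g) (i : Fin d) (c : fieldE hA i) :
    Module.End ℝ (eig (chiK hA i) (phiK hA i)) where
  toFun l := ⟨(l : Fin d → ℝ) ᵥ* rQ d (chi hA i c), by
    intro x
    have h1 : rQ d (chi hA i c) * rQ d (chiK hA i x) = rQ d (chiK hA i x) * rQ d (chi hA i c) := by
      have h2 : chi hA i c * chiK hA i x = chiK hA i x * chi hA i c := by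
        change chi hA i c * chi hA i x = chi hA i x * chi hA i c
        rw [← map_mul, ← map_mul, mul_comm]
      rw [← map_mul, ← map_mul, h2]
    rw [vecMul_vecMul, h1, ← vecMul_vecMul, l.2 x, smul_vecMul]⟩
  map_add' a b := by
    apply Subtype.ext
    simp [add_vecMul]
  map_smul' r a := by
    apply Subtype.ext
    simp [smul_vecMul]

lemma act_apply (hA : Aniso g) (i : Fin d) (c : fieldE hA i)
    (l : eig (chiK hA i) (phiK hA i)) :
    (act hA i c l : Fin d → ℝ) = (l : Fin d → ℝ) ᵥ* rQ d (chi hA i c) := rfl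

lemma act_pow (hA : Aniso g) (i : Fin d) (c : fieldE hA i) (n : ℕ) :
    (act hA i c) ^ n = act hA i (c ^ n) := by
  induction n with
  | zero =>
    ext1 l
    apply Subtype.ext
    rw [act_apply, pow_zero, pow_zero, map_one, map_one, vecMul_one]
    rfl
  | succ n ih =>
    ext1 l
    apply Subtype.ext
    rw [pow_succ', Module.End.mul_apply, ih, act_apply, act_apply, act_apply, vecMul_vecMul,
      ← map_mul, ← map_mul, pow_succ]

lemma act_fieldK (hA : Aniso g) (i : Fin d) (c : fieldE hA i) (hc : c ∈ fieldK hA i) :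
    act hA i c = (c : ℝ) • (1 : Module.End ℝ (eig (chiK hA i) (phiK hA i))) := by
  ext1 l
  apply Subtype.ext
  rw [act_apply]
  exact l.2 ⟨c, hc⟩

/-- **no elements of odd prime order in the stabilizers** -/
theorem odd_prime (hg : g.det ≠ 0) (hA : Aniso g) (i : Fin d) (c : fieldE hA i) {p : ℕ}
    (hp : p.Prime) (hp2 : p ≠ 2) (hcp : c ^ p ∈ fieldK hA i) {π : Fin d → Fin d} {b : Fin d → ℝ}
    (hb : ∀ k, b k ≠ 0) (hπ : ∀ k, g k ᵥ* rQ d (chi hA i c) = b k • g (π k)) (hπi : π i = i) :
    c ∈ fieldK hA i := by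
  classical
  by_contra hcon
  have hodd : Odd p := hp.odd_of_ne_two hp2
  have hc0 : c ≠ 0 := fun h0 => hcon (h0 ▸ (fieldK hA i).zero_mem)
  have hcR : (c : ℝ) ≠ 0 := fun h0 => hc0 (Subtype.ext h0)
  -- the minimal polynomial
  have hirr : Irreducible (X ^ p - C (⟨c ^ p, hcp⟩ : fieldK hA i)) := by
    refine X_pow_sub_C_irreducible_of_prime hp fun y hy => hcon ?_
    have h1 : ((y : fieldE hA i) : ℝ) ^ p = (c : ℝ) ^ p := by
      have h2 := congrArg (fun z : fieldK hA i => ((z : fieldE hA i) : ℝ)) hy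
      simpa using h2
    have h2 : ((y : fieldE hA i) : ℝ) = (c : ℝ) := hodd.strictMono_pow.injective h1
    have h3 : (y : fieldE hA i) = c := Subtype.ext h2
    rw [← h3]
    exact y.2
  have hmin : minpoly (fieldK hA i) c = X ^ p - C (⟨c ^ p, hcp⟩ : fieldK hA i) := by
    symm
    refine minpoly.eq_of_irreducible_of_monic hirr ?_ (monic_X_pow_sub_C _ hp.pos.ne')
    simp only [map_sub, map_pow, aeval_X, aeval_C]
    exact sub_self _
  have hint : IsIntegral (fieldK hA i) c := Algebra.IsIntegral.isIntegral c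
  have hdeg : finrank (fieldK hA i) (IntermediateField.adjoin (fieldK hA i) {c}) = p := by
    rw [IntermediateField.adjoin.finrank hint, hmin, natDegree_X_pow_sub_C]
  set L := IntermediateField.adjoin (fieldK hA i) {c} with hL
  -- the eigenforms of the larger field
  let χ : L →ₐ[ℚ] Matrix (Fin d) (Fin d) ℚ := (chi hA i).comp (L.val.restrictScalars ℚ)
  let φ : L →+* ℝ := ((fieldE hA i).val : fieldE hA i →+* ℝ).comp (L.val : L →+* fieldE hA i)
  have h1 := finrank_eig χ φ
  have h2 := card_cls hg hA i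
  have h3 : finrank ℚ L = finrank ℚ (fieldK hA i) * p := by
    rw [← hdeg]
    exact (Module.finrank_mul_finrank ℚ (fieldK hA i) L).symm
  have h4 : 0 < finrank ℚ (fieldK hA i) := finrank_pos
  have h5 : (cls hA i).card = p * finrank ℝ (eig χ φ) := by
    refine Nat.eq_of_mul_eq_mul_right h4 ?_
    refine h2.trans (h1.symm.trans ?_)
    rw [h3]
    ring
  -- the kernel
  have h6 : finrank ℝ (LinearMap.ker (act hA i c - (c : ℝ) • (1 : Module.End ℝ _))) ≤
      finrank ℝ (eig χ φ) := by
    rw [← Submodule.finrank_map_subtype_eq]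
    refine Submodule.finrank_mono ?_
    rintro l ⟨⟨l, hl⟩, hl2, rfl⟩
    have h7 : l ᵥ* rQ d (chi hA i c) = (c : ℝ) • l := by
      have h8 := LinearMap.mem_ker.1 hl2
      rw [LinearMap.sub_apply, sub_eq_zero] at h8
      exact congrArg Subtype.val h8
    intro x
    change l ᵥ* rQ d (chi hA i (x : fieldE hA i)) = ((x : fieldE hA i) : ℝ) • l
    obtain ⟨x, hx⟩ := x
    change l ᵥ* rQ d (chi hA i x) = (x : ℝ) • l
    induction hx using IntermediateField.adjoin_induction with
    | mem x hx =>
      rw [Set.mem_singleton_iff] at hx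
      rw [hx, h7]
    | algebraMap x => exact hl x
    | add x y _ _ hx hy =>
      rw [map_add, map_add, vecMul_add, hx, hy, ← add_smul]
      rfl
    | inv x _ hx =>
      by_cases h0 : x = 0
      · rw [h0, _root_.inv_zero, map_zero, map_zero, vecMul_zero]
        simp
      · have h8 : l ᵥ* rQ d (chi hA i x) ᵥ* rQ d (chi hA i x⁻¹) = l := by
          rw [vecMul_vecMul, ← map_mul, ← map_mul, mul_inv_cancel₀ h0, map_one, map_one,
            vecMul_one]
        rw [hx, smul_vecMul] at h8
        have h9 : (x : ℝ) ≠ 0 := fun h => h0 (Subtype.ext h)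
        calc l ᵥ* rQ d (chi hA i x⁻¹) = (x : ℝ)⁻¹ • ((x : ℝ) • (l ᵥ* rQ d (chi hA i x⁻¹))) := by
              rw [smul_smul, inv_mul_cancel₀ h9, one_smul]
          _ = ((x⁻¹ : fieldE hA i) : ℝ) • l := by rw [h8]; rfl
    | mul x y _ _ hx hy =>
      rw [map_mul, map_mul, ← vecMul_vecMul, hx, smul_vecMul, hy, smul_smul]
      rfl
  -- the traces
  have hAp : act hA i c ^ p = ((c : ℝ) ^ p) • 1 := by
    rw [act_pow, act_fieldK hA i _ hcp]
    rfl
  have h7 := proj_trace (act hA i c) hp.pos hcR hAp
  have hiter : ∀ (n : ℕ) (k : Fin d), ∃ B : ℝ, B ≠ 0 ∧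
      g k ᵥ* rQ d (chi hA i (c ^ n)) = B • g (π^[n] k) := by
    intro n
    induction n with
    | zero =>
      intro k
      exact ⟨1, one_ne_zero, by rw [pow_zero, map_one, map_one, vecMul_one, one_smul]; rfl⟩
    | succ n ih =>
      intro k
      obtain ⟨B, hB, hB2⟩ := ih k
      refine ⟨B * b (π^[n] k), mul_ne_zero hB (hb _), ?_⟩
      rw [pow_succ, map_mul, map_mul, ← vecMul_vecMul, hB2, smul_vecMul, hπ, smul_smul,
        Function.iterate_succ_apply']
  have htr : ∀ j : ℕ, ((c : ℝ) ^ j)⁻¹ * LinearMap.trace ℝ _ (act hA i c ^ j) =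
      ((Finset.univ.filter fun k : cls hA i => π^[j] (k : Fin d) = k).card : ℝ) := by
    intro j
    rw [LinearMap.trace_eq_matrix_trace ℝ (bU hg hA i), Matrix.trace, Finset.mul_sum,
      Finset.card_filter, Nat.cast_sum]
    refine Finset.sum_congr rfl fun k _ => ?_
    rw [Matrix.diag_apply, LinearMap.toMatrix_apply]
    obtain ⟨B, hB, hB2⟩ := hiter j k
    -- the image stays in the class
    have hmem : π^[j] (k : Fin d) ∈ cls hA i := by
      rw [mem_cls]
      have h8 : g (π^[j] k) = B⁻¹ • (g k ᵥ* rQ d (chi hA i (c ^ j))) := by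
        rw [hB2, smul_smul, inv_mul_cancel₀ hB, one_smul]
      rw [h8]
      refine Submodule.smul_mem _ _ ?_
      have h9 := (act hA i (c ^ j) (bU hg hA i k)).2
      rw [act_apply, bU_apply] at h9
      exact h9
    have h8 : (act hA i c ^ j) (bU hg hA i k) = B • bU hg hA i ⟨π^[j] k, hmem⟩ := by
      apply Subtype.ext
      rw [act_pow, act_apply, Submodule.coe_smul, bU_apply, bU_apply, hB2]
    rw [h8, map_smul, Finsupp.smul_apply, Basis.repr_self, Finsupp.single_apply, smul_eq_mul]
    by_cases hk : π^[j] (k : Fin d) = k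
    · have hk2 : (⟨π^[j] k, hmem⟩ : cls hA i) = k := Subtype.ext hk
      rw [if_pos hk2, if_pos hk, mul_one]
      -- the eigenvalue
      have h9 : B ^ p = ((c : ℝ) ^ j) ^ p := by
        have h10 : ∀ n : ℕ, g k ᵥ* rQ d (chi hA i ((c ^ j) ^ n)) = B ^ n • g k := by
          intro n
          induction n with
          | zero => rw [pow_zero, pow_zero, map_one, map_one, vecMul_one, one_smul]
          | succ n ih =>
            rw [pow_succ, map_mul, map_mul, ← vecMul_vecMul, ih, smul_vecMul, hB2, hk, smul_smul,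
              pow_succ]
        have h11 : (c ^ j) ^ p ∈ fieldK hA i := by
          rw [← pow_mul, mul_comm, pow_mul]
          exact pow_mem hcp j
        have h12 := (mem_cls.1 k.2) ⟨_, h11⟩
        have h13 : g k ᵥ* rQ d (chi hA i ((c ^ j) ^ p)) = (((c : ℝ) ^ j) ^ p) • g k := h12
        rw [h10] at h13
        exact smul_row_inj hA _ h13
      have h10 : B = (c : ℝ) ^ j := hodd.strictMono_pow.injective h9
      rw [h10, inv_mul_cancel₀ (pow_ne_zero _ hcR), Nat.cast_one]
    · have hk2 : (⟨π^[j] k, hmem⟩ : cls hA i) ≠ k := fun h => hk (congrArg Subtype.val h)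
      rw [if_neg hk2, if_neg hk]
      simp
  rw [Finset.sum_congr rfl fun j _ => htr j] at h7
  have h8 : (cls hA i).card + (p - 1) ≤ p * finrank ℝ (LinearMap.ker (act hA i c - (c : ℝ) •
      (1 : Module.End ℝ _))) := by
    have h9 : ((cls hA i).card + (p - 1) : ℕ) ≤ ∑ j ∈ Finset.range p,
        (Finset.univ.filter fun k : cls hA i => π^[j] (k : Fin d) = k).card := by
      obtain ⟨m, hm⟩ : ∃ m, p = m + 1 := ⟨p - 1, by have := hp.pos; omega⟩
      rw [hm, Finset.sum_range_succ']
      have h10 : (Finset.univ.filter fun k : cls hA i => π^[0] (k : Fin d) = k).card =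
          (cls hA i).card := by
        rw [Finset.filter_true_of_mem (by intro k _; rfl), Finset.card_univ, Fintype.card_coe]
      have h11 : m ≤ ∑ j ∈ Finset.range m,
          (Finset.univ.filter fun k : cls hA i => π^[j + 1] (k : Fin d) = k).card := by
        have h12 : ∀ j ∈ Finset.range m, 1 ≤
            (Finset.univ.filter fun k : cls hA i => π^[j + 1] (k : Fin d) = k).card := by
          intro j _
          refine Finset.card_pos.2 ⟨⟨i, self_mem_cls hA i⟩, ?_⟩
          rw [Finset.mem_filter]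
          refine ⟨Finset.mem_univ _, ?_⟩
          exact Function.iterate_fixed hπi _
        calc m = ∑ j ∈ Finset.range m, 1 := by simp
          _ ≤ _ := Finset.sum_le_sum h12
      rw [h10]
      omega
    have h10 : ((∑ j ∈ Finset.range p,
        (Finset.univ.filter fun k : cls hA i => π^[j] (k : Fin d) = k).card : ℕ) : ℝ) =
        ((p * finrank ℝ (LinearMap.ker (act hA i c - (c : ℝ) •
      (1 : Module.End ℝ _))) : ℕ) : ℝ) := by
      rw [Nat.cast_sum, ← h7, Nat.cast_mul]
    have h11 := Nat.cast_injective (R := ℝ) h10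
    omega
  have h9 : p * finrank ℝ (LinearMap.ker (act hA i c - (c : ℝ) • (1 : Module.End ℝ _))) ≤
      (cls hA i).card := by
    rw [h5]
    exact Nat.mul_le_mul_left p h6
  have h10 := hp.two_le
  omega

end Pool.Agent.H202.SG
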