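import Mathlib
import Pool.Agent.H202.SG.Odd

/-! # The group of the permutations of the linear factors -/

open Polynomial Module Matrix

namespace Pool.Agent.H202.SG

open Pool.Agent.Q64.IF

variable {d : ℕ} {g : Matrix (Fin d) (Fin d) ℝ}

/-- the nonsingular rational matrix `σ` permutes the linear forms up to factors -/
def Mono (g : Matrix (Fin d) (Fin d) ℝ) (σ : Matrix (Fin d) (Fin d) ℚ)
    (π : Equiv.Perm (Fin d)) : Prop :=
  σ.det ≠ 0 ∧ ∀ k, ∃ b : ℝ, b ≠ 0 ∧ g k ᵥ* rQ d σ = b • g (π k)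

lemma Mono.one : Mono g 1 1 :=
  ⟨by rw [det_one]; exact one_ne_zero, fun k => ⟨1, one_ne_zero, by
    rw [map_one, vecMul_one, one_smul]; rfl⟩⟩

lemma Mono.mul {σ τ : Matrix (Fin d) (Fin d) ℚ} {π ρ : Equiv.Perm (Fin d)} (hσ : Mono g σ π)
    (hτ : Mono g τ ρ) : Mono g (σ * τ) (ρ * π) := by
  refine ⟨by rw [det_mul]; exact mul_ne_zero hσ.1 hτ.1, fun k => ?_⟩
  obtain ⟨a, ha, ha2⟩ := hσ.2 k
  obtain ⟨b, hb, hb2⟩ := hτ.2 (π k)
  refine ⟨a * b, mul_ne_zero ha hb, ?_⟩
  rw [map_mul, ← vecMul_vecMul, ha2, smul_vecMul, hb2, smul_smul]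
  rfl

lemma Mono.inv {σ : Matrix (Fin d) (Fin d) ℚ} {π : Equiv.Perm (Fin d)} (hσ : Mono g σ π) :
    Mono g σ⁻¹ π⁻¹ := by
  have hu : IsUnit σ.det := isUnit_iff_ne_zero.2 hσ.1
  refine ⟨?_, fun k => ?_⟩
  · rw [det_nonsing_inv, Ring.inverse_eq_inv']
    exact inv_ne_zero hσ.1
  · obtain ⟨b, hb, hb2⟩ := hσ.2 (π⁻¹ k)
    rw [show π (π⁻¹ k) = k from π.apply_symm_apply k] at hb2
    refine ⟨b⁻¹, inv_ne_zero hb, ?_⟩
    have h1 : g (π⁻¹ k) ᵥ* rQ d σ ᵥ* rQ d σ⁻¹ = g (π⁻¹ k) := by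
      rw [vecMul_vecMul, ← map_mul, mul_nonsing_inv _ hu, map_one, vecMul_one]
    rw [hb2, smul_vecMul] at h1
    calc g k ᵥ* rQ d σ⁻¹ = b⁻¹ • (b • (g k ᵥ* rQ d σ⁻¹)) := by
          rw [smul_smul, inv_mul_cancel₀ hb, one_smul]
      _ = b⁻¹ • g (π⁻¹ k) := by rw [h1]

lemma Mono.pow {σ : Matrix (Fin d) (Fin d) ℚ} {π : Equiv.Perm (Fin d)} (hσ : Mono g σ π)
    (n : ℕ) : Mono g (σ ^ n) (π ^ n) := by
  induction n with
  | zero => rw [pow_zero, pow_zero]; exact Mono.one
  | succ n ih =>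
    rw [pow_succ, pow_succ']
    exact ih.mul hσ

lemma Mono.diag {σ : Matrix (Fin d) (Fin d) ℚ} (hσ : Mono g σ 1) : Diag g σ := by
  intro k
  obtain ⟨b, -, hb⟩ := hσ.2 k
  exact ⟨b, hb⟩

lemma Mono.unique (hg : g.det ≠ 0) {σ : Matrix (Fin d) (Fin d) ℚ} {π ρ : Equiv.Perm (Fin d)}
    (h1 : Mono g σ π) (h2 : Mono g σ ρ) : π = ρ := by
  ext1 k
  obtain ⟨a, ha, ha2⟩ := h1.2 k
  obtain ⟨b, -, hb2⟩ := h2.2 k
  exact row_inj hg ha (ha2.symm.trans hb2)

lemma Mono.of_diag {σ : Matrix (Fin d) (Fin d) ℚ} (hdet : σ.det ≠ 0) (hσ : Diag g σ)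
    (hA : Aniso g) : Mono g σ 1 := by
  refine ⟨hdet, fun k => ?_⟩
  obtain ⟨b, hb⟩ := hσ k
  refine ⟨b, ?_, hb⟩
  intro hb0
  rw [hb0, zero_smul] at hb
  have h1 := eq_zero_of_row hA hb
  have : Nonempty (Fin d) := ⟨k⟩
  rw [h1, det_zero] at hdet
  exact hdet rfl

/-- the group of the permutations of the linear forms induced by the similarities -/
def perms (g : Matrix (Fin d) (Fin d) ℝ) : Subgroup (Equiv.Perm (Fin d)) where
  carrier := {π | ∃ σ, Mono g σ π}
  mul_mem' := by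
    rintro π ρ ⟨σ, hσ⟩ ⟨τ, hτ⟩
    exact ⟨τ * σ, hτ.mul hσ⟩
  one_mem' := ⟨1, Mono.one⟩
  inv_mem' := by
    rintro π ⟨σ, hσ⟩
    exact ⟨σ⁻¹, hσ.inv⟩

lemma mem_perms {π : Equiv.Perm (Fin d)} : π ∈ perms g ↔ ∃ σ, Mono g σ π := Iff.rfl

lemma smul_def' (q : perms g) (k : Fin d) : q • k = (q : Equiv.Perm (Fin d)) k := rfl

/-- the elements of a stabilizer come from the field of the linear form -/
lemma exists_elt (hA : Aniso g) (i : Fin d) (q : MulAction.stabilizer (perms g) i) :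
    ∃ c : fieldE hA i, Mono g (chi hA i c) (q : perms g) := by
  obtain ⟨σ, hσ⟩ := mem_perms.1 (q : perms g).2
  obtain ⟨b, hb, hb2⟩ := hσ.2 i
  have h1 : ((q : perms g) : Equiv.Perm (Fin d)) i = i := q.2
  rw [h1] at hb2
  refine ⟨⟨b, σ, hb2⟩, ?_⟩
  rw [chi_eq hA i ⟨b, σ, hb2⟩ hb2]
  exact hσ

/-- the elements of the stabilizers as elements of the field of the linear form -/
noncomputable def elt (hA : Aniso g) (i : Fin d) (q : MulAction.stabilizer (perms g) i) :
    fieldE hA i := Classical.choose (exists_elt hA i q)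

lemma elt_spec (hA : Aniso g) (i : Fin d) (q : MulAction.stabilizer (perms g) i) :
    Mono g (chi hA i (elt hA i q)) (q : perms g) := Classical.choose_spec (exists_elt hA i q)

lemma elt_ne_zero (hA : Aniso g) (i : Fin d) (q : MulAction.stabilizer (perms g) i) :
    elt hA i q ≠ 0 := by
  intro h
  have h1 := (elt_spec hA i q).1
  have : Nonempty (Fin d) := ⟨i⟩
  rw [h, map_zero, det_zero] at h1
  exact h1 rfl

/-- the quotient of two elements with the same permutation is in the field of symmetries -/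
lemma div_mem (hA : Aniso g) (i : Fin d) {a b : fieldE hA i} {π : Equiv.Perm (Fin d)}
    (ha : Mono g (chi hA i a) π) (hb : Mono g (chi hA i b) π) (hb0 : b ≠ 0) :
    a * b⁻¹ ∈ fieldK hA i := by
  rw [mem_fieldK]
  have h1 : chi hA i b⁻¹ = (chi hA i b)⁻¹ := by
    rw [eq_comm]
    refine Matrix.inv_eq_right_inv ?_
    rw [← map_mul, mul_inv_cancel₀ hb0, map_one]
  rw [map_mul, h1]
  have h2 := ha.mul hb.inv
  rw [inv_mul_cancel] at h2
  exact h2.diag

/-- **the order of a stabilizer** -/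
theorem card_stab (hg : g.det ≠ 0) (hA : Aniso g) (i : Fin d) :
    Nat.card (MulAction.stabilizer (perms g) i) ∣ (cls hA i).card := by
  classical
  refine dvd_trans ?_ (finrank_dvd_cls hg hA i)
  refine card_dvd ((fieldE hA i).val : fieldE hA i →+* ℝ) (elt hA i) (elt_ne_zero hA i) ?_ ?_
  · intro q r
    have h1 : Mono g (chi hA i (elt hA i q * elt hA i r)) ((q * r : MulAction.stabilizer
        (perms g) i) : perms g) := by
      rw [mul_comm, map_mul]
      exact (elt_spec hA i r).mul (elt_spec hA i q)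
    have h2 := div_mem hA i h1 (elt_spec hA i (q * r)) (elt_ne_zero hA i _)
    refine ⟨⟨_, h2⟩, ?_⟩
    change elt hA i q * elt hA i r * (elt hA i (q * r))⁻¹ * elt hA i (q * r) = _
    rw [mul_assoc, inv_mul_cancel₀ (elt_ne_zero hA i _), mul_one]
  · rintro q r ⟨a, ha⟩
    have ha' : (a : fieldE hA i) * elt hA i r = elt hA i q := ha
    have ha0 : (a : fieldE hA i) ≠ 0 := by
      intro h0
      rw [h0, zero_mul] at ha'
      exact elt_ne_zero hA i q ha'.symm
    have hdet : (chi hA i a).det ≠ 0 := by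
      intro h0
      have h1 : chi hA i a * chi hA i (a : fieldE hA i)⁻¹ = 1 := by
        rw [← map_mul, mul_inv_cancel₀ ha0, map_one]
      have h2 := congrArg Matrix.det h1
      rw [det_mul, h0, zero_mul, det_one] at h2
      exact zero_ne_one h2
    have h1 : Mono g (chi hA i a) 1 := Mono.of_diag hdet a.2 hA
    have h2 := h1.mul (elt_spec hA i r)
    rw [← map_mul, ha', mul_one] at h2
    have h3 := (elt_spec hA i q).unique hg h2
    exact Subtype.ext (Subtype.ext h3)

/-- **the stabilizers are `2`-groups** -/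
theorem stab_two (hg : g.det ≠ 0) (hA : Aniso g) (i : Fin d) :
    ∃ e, Nat.card (MulAction.stabilizer (perms g) i) = 2 ^ e := by
  classical
  have hne : Nat.card (MulAction.stabilizer (perms g) i) ≠ 0 := Nat.card_pos.ne'
  refine ⟨_, Nat.eq_prime_pow_of_unique_prime_dvd hne ?_⟩
  intro p hp hdvd
  by_contra hp2
  have := Fact.mk hp
  obtain ⟨q, hq⟩ := exists_prime_orderOf_dvd_card' (G := MulAction.stabilizer (perms g) i) p hdvd
  have hq1 : q ≠ 1 := by
    intro h
    rw [h, orderOf_one] at hq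
    exact hp.one_lt.ne hq
  have hqp : q ^ p = 1 := by rw [← hq]; exact pow_orderOf_eq_one q
  have h1 : (elt hA i q) ^ p ∈ fieldK hA i := by
    rw [mem_fieldK, map_pow]
    have h2 := (elt_spec hA i q).pow p
    have h3 : (((q : perms g) : Equiv.Perm (Fin d)) ^ p) = 1 := by
      have h4 := congrArg (fun z : MulAction.stabilizer (perms g) i =>
        ((z : perms g) : Equiv.Perm (Fin d))) hqp
      simpa using h4
    rw [h3] at h2
    exact h2.diag
  choose b hb hb2 using (elt_spec hA i q).2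
  have h2 := odd_prime hg hA i (elt hA i q) hp hp2 h1 hb hb2 q.2
  refine hq1 ?_
  have h3 : Mono g (chi hA i (elt hA i q)) 1 := Mono.of_diag (elt_spec hA i q).1 h2 hA
  have h4 := (elt_spec hA i q).unique hg h3
  exact Subtype.ext (Subtype.ext h4)

/-- the stabilizers are commutative -/
theorem stab_comm (hg : g.det ≠ 0) (hA : Aniso g) (i : Fin d)
    (q r : MulAction.stabilizer (perms g) i) : q * r = r * q := by
  have h1 : Mono g (chi hA i (elt hA i q * elt hA i r)) ((q * r : MulAction.stabilizer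
      (perms g) i) : perms g) := by
    rw [mul_comm, map_mul]
    exact (elt_spec hA i r).mul (elt_spec hA i q)
  have h2 : Mono g (chi hA i (elt hA i q * elt hA i r)) ((r * q : MulAction.stabilizer
      (perms g) i) : perms g) := by
    rw [map_mul]
    exact (elt_spec hA i q).mul (elt_spec hA i r)
  exact Subtype.ext (Subtype.ext (h1.unique hg h2))

/-- **the order of the group** -/
theorem card_perms (hg : g.det ≠ 0) (hA : Aniso g) {m : ℕ} (hm : m ≠ 0)
    (hcls : ∀ i, (cls hA i).card = m) : Nat.card (perms g) ∣ 2 ^ (padicValNat 2 m) * d := by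
  classical
  have hstab : ∀ i : Fin d, Nat.card (MulAction.stabilizer (perms g) i) ∣ 2 ^ (padicValNat 2 m) := by
    intro i
    obtain ⟨e, he⟩ := stab_two hg hA i
    have h1 := card_stab hg hA i
    rw [he, hcls i] at h1
    rw [he]
    exact pow_dvd_pow 2 ((padicValNat_dvd_iff_le hm).1 h1)
  have hcard : d = ∑ ω : Quotient (MulAction.orbitRel (perms g) (Fin d)),
      Fintype.card (perms g) / Fintype.card (MulAction.stabilizer (perms g) ω.out) := by
    have h1 := MulAction.card_eq_sum_card_group_div_card_stabilizer (perms g) (Fin d)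
    rwa [Fintype.card_fin] at h1
  conv_rhs => rw [hcard]
  rw [Finset.mul_sum]
  refine Finset.dvd_sum fun ω _ => ?_
  obtain ⟨t, ht⟩ := hstab ω.out
  have h1 : Fintype.card (MulAction.stabilizer (perms g) ω.out) ∣ Fintype.card (perms g) := by
    rw [← Nat.card_eq_fintype_card, ← Nat.card_eq_fintype_card]
    exact Subgroup.card_subgroup_dvd_card _
  rw [Nat.card_eq_fintype_card] at ht ⊢
  obtain ⟨u, hu⟩ := h1
  have h2 : 0 < Fintype.card (MulAction.stabilizer (perms g) ω.out) := Fintype.card_pos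
  rw [ht, hu, Nat.mul_div_cancel_left _ h2]
  exact ⟨t, by ring⟩

end Pool.Agent.H202.SG
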